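import Mathlib
import Pool.Agent.H31.Pock

set_option autoImplicit false

namespace Pool.Agent.Results.MP_70678e_nt.Counter

open Pool.Agent.H31.Pock

lemma p66740494766237 : Nat.Prime 66740494766237 :=
  prime_of _ 1 (43003440261206, 60371467537071) [7039, 457, 2, 2] 24
    (by simp only [List.forall_mem_cons]; exact ⟨by norm_num, by norm_num, by norm_num, by norm_num, nofun⟩) (by decide +kernel)

lemma p459948113478_41 : Nat.Prime 45994811347886846310221728895223034301839 :=
  prime_of _ 3 (10346539580285192464866007949413468488745, 36922654267423324839177041843104118232171) [66740494766237, 29917, 2239] 72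
    (by simp only [List.forall_mem_cons]; exact ⟨p66740494766237, by norm_num, by norm_num, nofun⟩) (by decide +kernel)

lemma p111613907 : Nat.Prime 111613907 :=
  prime_of _ 1 (50098947, 109807695) [292183] 19
    (by simp only [List.forall_mem_cons]; exact ⟨by norm_num, nofun⟩) (by decide +kernel)

lemma p241573142393627673576957439049 : Nat.Prime 241573142393627673576957439049 :=
  prime_of _ 3 (210789509022344975054935723598, 143186316957185171240271965253) [111613907, 359, 29, 3, 3, 3, 5, 5] 50
    (by simp only [List.forall_mem_cons]; exact ⟨p111613907, by norm_num, by norm_num, by norm_num, by norm_num, by norm_num, by norm_num, by norm_num, nofun⟩) (by decide +kernel)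

lemma pN : Nat.Prime (10 ^ 143 - 11) :=
  prime_of _ 2 (69427103557406321169024840404280538156855853137383747081247106243744152563289871399433566410138230901045833902524914764813940793977758381088840, 76373675902439517835479223517907565066199748619529058773830909805556712490294250051130594972681788019251385603904860777479519008388363210173701) [2, 5, 3, 3, 241573142393627673576957439049, 45994811347886846310221728895223034301839] 240
    (by simp only [List.forall_mem_cons]; exact ⟨by norm_num, by norm_num, by norm_num, by norm_num, p241573142393627673576957439049, p459948113478_41, nofun⟩) (by decide +kernel)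

lemma shape : ∀ m n : ℕ, n < 10 ^ m → (Nat.digits 10 n).sum ≤ 9 * m ∧ ((Nat.digits 10 n).sum = 9 * m → n + 1 = 10 ^ m) ∧
    ((Nat.digits 10 n).sum + 1 = 9 * m → ∃ j < m, n + 1 + 10 ^ j = 10 ^ m)
  | 0, n, h => by
    obtain rfl : n = 0 := by omega
    simp
  | m + 1, n, h => by
    obtain ⟨h1, h2, h3⟩ := shape m (n / 10) (by omega)
    have e : (Nat.digits 10 n).sum = n % 10 + (Nat.digits 10 (n / 10)).sum := by
      rcases n.eq_zero_or_pos with rfl | hn
      · simp
      · rw [Nat.digits_def' (by norm_num) hn, List.sum_cons]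
    refine ⟨by omega, fun _ => by omega, fun h4 => ?_⟩
    by_cases h5 : n % 10 = 9
    · obtain ⟨j, hj, e⟩ := h3 (by omega)
      exact ⟨j + 1, by omega, by omega⟩
    · exact ⟨0, by omega, by omega⟩

lemma comp : ∀ j < 143, 2 ≤ j → (pw 0 (10 ^ 143 - 1 - 10 ^ j) 480 (10 ^ 143 - 1 - 10 ^ j) (2, 0)).1 %
    (10 ^ 143 - 1 - 10 ^ j) ≠ 2 % (10 ^ 143 - 1 - 10 ^ j) := by decide +kernel

theorem result : ∃ k > 59, ∃ p : ℕ, IsLeast {q : ℕ | q.Prime ∧ (Nat.digits 10 q).sum = k} p ∧
    p % 100 ≠ 99 ∧ p % 1000 ≠ 999 := by
  refine ⟨1286, by norm_num, 10 ^ 143 - 11, ⟨⟨pN, by decide +kernel⟩, fun q ⟨hq, hs⟩ => ?_⟩, by norm_num, by norm_num⟩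
  by_contra! h
  obtain ⟨j, hj, e⟩ := (shape 143 q (by omega)).2.2 (by omega)
  have h2 : 2 ≤ j := by
    by_contra! h2
    interval_cases j <;> omega
  refine not_prime_of _ 480 ?_ (comp j hj h2) (by rwa [show 10 ^ 143 - 1 - 10 ^ j = q by omega])
  exact ((Nat.sub_le _ _).trans (Nat.sub_le _ _)).trans_lt (by decide +kernel)

end Pool.Agent.Results.MP_70678e_nt.Counter
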